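import Mathlib

/-!
# Cohomological dimension one forces extensions of pure representations to split locally

`k` is a number field, `ℓ` a prime, `C = 𝒞_{k,ℓ}` the category of mixed potentially semistable `ℓ`-adic
representations of `G_k`, `K = ℚ_ℓ`, `A(1)` the Tate twist. For pure `A`, `B` of the same weight put
`M = Hom(A, B)`. Then `Ext¹_C(A, B) = H¹_g(k, M)` and `Ext¹_C(B, A(1)) = H¹_g(k, M^*(1))` (Bloch-Kato Selmer groups
without condition outside `ℓ`): a class of `H¹(G_S, M)` is an extension which is unramified outside `S`, mixed because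
of the weights, and potentially semistable iff it is de Rham, i.e. in `H¹_g(k_v, M)`, for `v ∣ ℓ`.

**Theorem.** If `Ext²_C(A, A(1)) = 0`, in particular if `Ext²_C` vanishes as Q1 predicts, then for every `B` pure of
the weight of `A` every extension of `A` by `B` in `C` splits over the decomposition groups of almost all places.
More precisely, if `x ∈ Ext¹_C(A, B)` is not of this kind there is an `e ∈ Ext¹_C(B, A(1))` with `x·e ≠ 0` in
`Ext²_C(A, A(1))`. So, if the local-global principle (a class which is trivial at almost all places is zero) holds for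
`(A, B)`, then Q1 implies `Ext¹_C(A, B) = 0`. It holds for `A = B` if `A` is absolutely irreducible over all finite
extensions of `k`: the weights of the irreducible constituents of `End(A)` are in the root lattice, so Frobenius
elements have the eigenvalue `1` on each of them, and a Chebotarev argument applies. So Q1 implies the vanishing of the
adjoint Selmer groups `H¹_g(k, End A)`.

Idea. Let `x_v ≠ 0` for infinitely many `v`. `Ext¹_C(A, B)` is finite-dimensional (`M` is pure of weight `0`), hence the
classes which are trivial at almost all places vanish outside one finite set `T`. Choose `v ∉ T` with `x_v ≠ 0`. If all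
products `x·e` vanish, the invariant of `x·e` at `v`, i.e. `⟨x_v, e_v⟩`, is zero for all `e`. By Poitou-Tate duality, and
because `H¹_e` is the annihilator of `H¹_g`, for every finite `S` there is `y ∈ Ext¹_C(A, B)` with `y_v = x_v` and
`y_w = 0` for `w ∈ S`, `w ≠ v`. By finite dimension one `y` works for all `S`; it is trivial outside `v`, so `y_v = 0`, a
contradiction.
-/

set_option autoImplicit false

open CategoryTheory CategoryTheory.Abelian

universe w v u

namespace Pool.Agent.Results.MP_5968e7_ag.PureExtensions

/-- What is used of the category `C = 𝒞_{k,ℓ}` over `K = ℚ_ℓ`. All the fields are known facts. -/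
structure ArithmeticData (K : Type) [Field K] (C : Type u) [Category.{v} C] [Abelian C] [Linear K C]
    [HasExt.{w} C] where
  /-- `A` is pure of the given weight -/
  pure : ℤ → C → Prop
  /-- the Tate twist `A(1)` -/
  tate : C → C
  /-- the finite places of `k` which do not divide `ℓ` -/
  Place : Type
  /-- `H¹(k_v, Hom(A, B))` -/
  loc : C → C → Place → ModuleCat.{w} K
  /-- `x ↦ x_v`, the restriction to the decomposition group -/
  res : ∀ (A B : C) (p : Place), Ext A B 1 →ₗ[K] loc A B p
  /-- `(λ, e) ↦ ⟨λ, e_v⟩`, the local duality between `H¹(k_v, Hom(A, B))` and `H¹(k_v, Hom(B, A)(1))` -/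
  pair : ∀ (A B : C) (p : Place), loc A B p →ₗ[K] Ext B (tate A) 1 →ₗ[K] K
  /-- the map of `Ext²_C(A, A(1))` to `H²(k_v, End(A)(1))` followed by the trace and the invariant map of `H²(k_v, K(1))` -/
  inv : ∀ (A : C), Place → (Ext A (tate A) 2 →+ K)
  /-- the invariant of a Yoneda product is given by the local duality -/
  cup : ∀ (A B : C) (p : Place) (x : Ext A B 1) (e : Ext B (tate A) 1),
    inv A p (x.comp e rfl) = pair A B p (res A B p x) e
  /-- `H¹_g(k, M)` is finite-dimensional for `M = Hom(A, B)` pure of weight `0` -/
  finite : ∀ m (A B : C), pure m A → pure m B → FiniteDimensional K (Ext A B 1)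
  /-- Poitou-Tate duality and the local duality between `H¹_e` and `H¹_g` at the places over `ℓ`: if `λ` is orthogonal
  to all the `e_v` there is for every finite `S` a class `y` with `y_v = λ` and `y_w = 0` for the other `w` in `S` -/
  poitou_tate : ∀ m (A B : C), pure m A → pure m B → ∀ (p : Place) (l : loc A B p), (∀ e, pair A B p l e = 0) →
    ∀ S : Finset Place, ∃ y : Ext A B 1, res A B p y = l ∧ ∀ q ∈ S, q ≠ p → res A B q y = 0

variable {K : Type} [Field K] {C : Type u} [Category.{v} C] [Abelian C] [Linear K C] [HasExt.{w} C]

/-- The extension `x` splits over the decomposition groups of almost all places. -/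
def LocallySplit (D : ArithmeticData K C) {A B : C} (x : Ext A B 1) : Prop :=
  {p : D.Place | D.res A B p x ≠ 0}.Finite

/-- The classes which are trivial at almost all places. -/
def almost (D : ArithmeticData K C) (A B : C) : Submodule K (Ext A B 1) where
  carrier := {x | LocallySplit D x}
  add_mem' := by
    intro x y hx hy
    refine (Set.Finite.union hx hy).subset fun p hp => ?_
    by_contra h
    simp only [Set.mem_union, Set.mem_ofPred_eq, not_or, not_not] at h
    exact hp (by rw [map_add, h.1, h.2, add_zero])
  zero_mem' := by
    show Set.Finite _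
    simp
  smul_mem' := by
    intro c x hx
    refine Set.Finite.subset hx fun p hp => ?_
    intro h
    exact hp (by rw [map_smul, h, smul_zero])

/-- The classes which are trivial at the places of `S` other than `p`. -/
def away (D : ArithmeticData K C) (A B : C) (p : D.Place) (S : Finset D.Place) : Submodule K (Ext A B 1) where
  carrier := {x | ∀ q ∈ S, q ≠ p → D.res A B q x = 0}
  add_mem' := by
    intro x y hx hy q hq hqp
    rw [map_add, hx q hq hqp, hy q hq hqp, add_zero]
  zero_mem' := fun q _ _ => map_zero _
  smul_mem' := by
    intro c x hx q hq hqp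
    rw [map_smul, hx q hq hqp, smul_zero]

lemma exists_bad (D : ArithmeticData K C) (A B : C) [FiniteDimensional K (Ext A B 1)] :
    ∃ T : Set D.Place, T.Finite ∧ ∀ x ∈ almost D A B, ∀ p, p ∉ T → D.res A B p x = 0 := by
  classical
  obtain ⟨s, hs⟩ := (IsNoetherian.noetherian (almost D A B) : (almost D A B).FG)
  refine ⟨⋃ x ∈ s, {p | D.res A B p x ≠ 0}, ?_, ?_⟩
  · refine Set.Finite.biUnion s.finite_toSet fun x hx => ?_
    have : x ∈ almost D A B := hs ▸ Submodule.subset_span hx
    exact this
  · intro x hx p hp
    have h1 : almost D A B ≤ LinearMap.ker (D.res A B p) := by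
      rw [← hs, Submodule.span_le]
      intro y hy
      by_contra h
      exact hp (Set.mem_biUnion (by exact hy) (by simpa using h))
    exact LinearMap.mem_ker.1 (h1 hx)

/-- The main step. -/
lemma exists_product (D : ArithmeticData K C) {m : ℤ} {A B : C} (hA : D.pure m A) (hB : D.pure m B)
    (x : Ext A B 1) (hx : ¬ LocallySplit D x) : ∃ e : Ext B (D.tate A) 1, x.comp e rfl ≠ 0 := by
  classical
  by_contra hcon
  push Not at hcon
  have := D.finite m A B hA hB
  obtain ⟨T, hT, hT2⟩ := exists_bad D A B
  obtain ⟨p, hp, hpT⟩ : ∃ p, D.res A B p x ≠ 0 ∧ p ∉ T := by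
    by_contra h
    push Not at h
    exact hx (hT.subset fun p hp => h p hp)
  have h0 : ∀ e, D.pair A B p (D.res A B p x) e = 0 := fun e => by
    rw [← D.cup, hcon e, map_zero]
  -- a minimal member of the family `away`
  obtain ⟨N, ⟨S, rfl⟩, hmin⟩ := IsArtinian.set_has_minimal (R := K) (M := Ext A B 1)
    (Set.range (away D A B p)) ⟨_, ⟨∅, rfl⟩⟩
  obtain ⟨y, hy1, hy2⟩ := D.poitou_tate m A B hA hB p _ h0 S
  have hy : ∀ q, q ≠ p → D.res A B q y = 0 := by
    intro q hq
    have hle : away D A B p (insert q S) ≤ away D A B p S :=
      fun z hz r hr hrp => hz r (Finset.mem_insert_of_mem hr) hrp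
    have heq : away D A B p (insert q S) = away D A B p S := by
      by_contra hne
      exact hmin _ ⟨insert q S, rfl⟩ (lt_of_le_of_ne hle hne)
    have hmem : y ∈ away D A B p (insert q S) := by
      rw [heq]
      exact hy2
    exact hmem q (Finset.mem_insert_self _ _) hq
  have hal : y ∈ almost D A B := by
    refine Set.Finite.subset (Set.finite_singleton p) fun q hq => ?_
    by_contra h
    exact hq (hy q h)
  exact hp (by rw [← hy1]; exact hT2 y hal p hpT)

/-- **Theorem.** (1) If `x ∈ Ext¹_C(A, B)`, `A`, `B` pure of the same weight, is not locally split then `x·e ≠ 0` in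
`Ext²_C(A, A(1))` for some `e ∈ Ext¹_C(B, A(1))`. (2) If `Ext²_C = 0` every extension of pure objects of the same
weight is locally split. (3) If `Ext²_C = 0` and the local-global principle holds for `(A, B)` then
`Ext¹_C(A, B) = 0`. -/
theorem result (D : ArithmeticData K C) :
    (∀ m (A B : C), D.pure m A → D.pure m B → ∀ x : Ext A B 1, ¬ LocallySplit D x →
      ∃ e : Ext B (D.tate A) 1, x.comp e (rfl : 1 + 1 = 2) ≠ 0) ∧
    ((∀ X Y : C, Subsingleton (Ext X Y 2)) → ∀ m (A B : C), D.pure m A → D.pure m B →
      (∀ x : Ext A B 1, LocallySplit D x) ∧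
      ((∀ x : Ext A B 1, LocallySplit D x → x = 0) → ∀ x : Ext A B 1, x = 0)) := by
  refine ⟨fun m A B hA hB x hx => exists_product D hA hB x hx, fun h2 m A B hA hB => ?_⟩
  have h : ∀ x : Ext A B 1, LocallySplit D x := by
    intro x
    by_contra hx
    obtain ⟨e, he⟩ := exists_product D hA hB x hx
    have := h2 A (D.tate A)
    exact he (Subsingleton.elim _ _)
  exact ⟨h, fun hlg x => hlg x (h x)⟩

end Pool.Agent.Results.MP_5968e7_ag.PureExtensions
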